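import Pool.Agent.H.MP_ad013a_pr.h63r.Q4.T
import Pool.Agent.H.MP_ad013a_pr.h63w.VLoop

namespace Pool.Agent.ad013a.R4

theorem c0 : lp7 (fun s => chk (ent L0 s)) 0 = true := by decide +kernel
theorem p0 : PrL chk L0 := leafL c0

theorem c1 : lp7 (fun s => chk (ent L1 s)) 0 = true := by decide +kernel
theorem p1 : PrL chk L1 := leafL c1

theorem c2 : lp7 (fun s => chk (ent L2 s)) 0 = true := by decide +kernel
theorem p2 : PrL chk L2 := leafL c2

theorem c3 : lp7 (fun s => chk (ent L3 s)) 0 = true := by decide +kernel
theorem p3 : PrL chk L3 := leafL c3

theorem c4 : lp7 (fun s => chk (ent L4 s)) 0 = true := by decide +kernel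
theorem p4 : PrL chk L4 := leafL c4

theorem c5 : lp7 (fun s => chk (ent L5 s)) 0 = true := by decide +kernel
theorem p5 : PrL chk L5 := leafL c5

theorem c6 : lp7 (fun s => chk (ent L6 s)) 0 = true := by decide +kernel
theorem p6 : PrL chk L6 := leafL c6

theorem c7 : lp7 (fun s => chk (ent L7 s)) 0 = true := by decide +kernel
theorem p7 : PrL chk L7 := leafL c7

theorem c8 : lp7 (fun s => chk (ent L8 s)) 0 = true := by decide +kernel
theorem p8 : PrL chk L8 := leafL c8

theorem c9 : lp7 (fun s => chk (ent L9 s)) 0 = true := by decide +kernel
theorem p9 : PrL chk L9 := leafL c9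

theorem c10 : lp7 (fun s => chk (ent L10 s)) 0 = true := by decide +kernel
theorem p10 : PrL chk L10 := leafL c10

theorem c11 : lp7 (fun s => chk (ent L11 s)) 0 = true := by decide +kernel
theorem p11 : PrL chk L11 := leafL c11

theorem c12 : lp7 (fun s => chk (ent L12 s)) 0 = true := by decide +kernel
theorem p12 : PrL chk L12 := leafL c12

theorem c13 : lp7 (fun s => chk (ent L13 s)) 0 = true := by decide +kernel
theorem p13 : PrL chk L13 := leafL c13

theorem c14 : lp7 (fun s => chk (ent L14 s)) 0 = true := by decide +kernel
theorem p14 : PrL chk L14 := leafL c14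

theorem c15 : lp7 (fun s => chk (ent L15 s)) 0 = true := by decide +kernel
theorem p15 : PrL chk L15 := leafL c15

theorem c16 : lp7 (fun s => chk (ent L16 s)) 0 = true := by decide +kernel
theorem p16 : PrL chk L16 := leafL c16

theorem c17 : lp7 (fun s => chk (ent L17 s)) 0 = true := by decide +kernel
theorem p17 : PrL chk L17 := leafL c17

theorem c18 : lp7 (fun s => chk (ent L18 s)) 0 = true := by decide +kernel
theorem p18 : PrL chk L18 := leafL c18

theorem c19 : lp7 (fun s => chk (ent L19 s)) 0 = true := by decide +kernel
theorem p19 : PrL chk L19 := leafL c19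

theorem c20 : lp7 (fun s => chk (ent L20 s)) 0 = true := by decide +kernel
theorem p20 : PrL chk L20 := leafL c20

theorem c21 : lp7 (fun s => chk (ent L21 s)) 0 = true := by decide +kernel
theorem p21 : PrL chk L21 := leafL c21

theorem c22 : lp7 (fun s => chk (ent L22 s)) 0 = true := by decide +kernel
theorem p22 : PrL chk L22 := leafL c22

theorem c23 : lp7 (fun s => chk (ent L23 s)) 0 = true := by decide +kernel
theorem p23 : PrL chk L23 := leafL c23

theorem c24 : lp7 (fun s => chk (ent L24 s)) 0 = true := by decide +kernel
theorem p24 : PrL chk L24 := leafL c24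

theorem c25 : lp7 (fun s => chk (ent L25 s)) 0 = true := by decide +kernel
theorem p25 : PrL chk L25 := leafL c25

theorem c26 : lp7 (fun s => chk (ent L26 s)) 0 = true := by decide +kernel
theorem p26 : PrL chk L26 := leafL c26

theorem c27 : lp7 (fun s => chk (ent L27 s)) 0 = true := by decide +kernel
theorem p27 : PrL chk L27 := leafL c27

theorem c28 : lp7 (fun s => chk (ent L28 s)) 0 = true := by decide +kernel
theorem p28 : PrL chk L28 := leafL c28

theorem c29 : lp7 (fun s => chk (ent L29 s)) 0 = true := by decide +kernel
theorem p29 : PrL chk L29 := leafL c29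

theorem c30 : lp7 (fun s => chk (ent L30 s)) 0 = true := by decide +kernel
theorem p30 : PrL chk L30 := leafL c30

theorem c31 : lp7 (fun s => chk (ent L31 s)) 0 = true := by decide +kernel
theorem p31 : PrL chk L31 := leafL c31

theorem c32 : lp7 (fun s => chk (ent L32 s)) 0 = true := by decide +kernel
theorem p32 : PrL chk L32 := leafL c32

theorem c33 : lp7 (fun s => chk (ent L33 s)) 0 = true := by decide +kernel
theorem p33 : PrL chk L33 := leafL c33

theorem c34 : lp7 (fun s => chk (ent L34 s)) 0 = true := by decide +kernel
theorem p34 : PrL chk L34 := leafL c34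

theorem c35 : lp7 (fun s => chk (ent L35 s)) 0 = true := by decide +kernel
theorem p35 : PrL chk L35 := leafL c35

theorem c36 : lp7 (fun s => chk (ent L36 s)) 0 = true := by decide +kernel
theorem p36 : PrL chk L36 := leafL c36

theorem c37 : lp7 (fun s => chk (ent L37 s)) 0 = true := by decide +kernel
theorem p37 : PrL chk L37 := leafL c37

theorem c38 : lp7 (fun s => chk (ent L38 s)) 0 = true := by decide +kernel
theorem p38 : PrL chk L38 := leafL c38

theorem c39 : lp7 (fun s => chk (ent L39 s)) 0 = true := by decide +kernel
theorem p39 : PrL chk L39 := leafL c39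

theorem c40 : lp7 (fun s => chk (ent L40 s)) 0 = true := by decide +kernel
theorem p40 : PrL chk L40 := leafL c40

theorem c41 : lp7 (fun s => chk (ent L41 s)) 0 = true := by decide +kernel
theorem p41 : PrL chk L41 := leafL c41

theorem c42 : lp7 (fun s => chk (ent L42 s)) 0 = true := by decide +kernel
theorem p42 : PrL chk L42 := leafL c42

theorem c43 : lp7 (fun s => chk (ent L43 s)) 0 = true := by decide +kernel
theorem p43 : PrL chk L43 := leafL c43

theorem c44 : lp7 (fun s => chk (ent L44 s)) 0 = true := by decide +kernel
theorem p44 : PrL chk L44 := leafL c44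

theorem c45 : lp7 (fun s => chk (ent L45 s)) 0 = true := by decide +kernel
theorem p45 : PrL chk L45 := leafL c45

theorem c46 : lp7 (fun s => chk (ent L46 s)) 0 = true := by decide +kernel
theorem p46 : PrL chk L46 := leafL c46

theorem c47 : lp7 (fun s => chk (ent L47 s)) 0 = true := by decide +kernel
theorem p47 : PrL chk L47 := leafL c47

theorem c48 : lp7 (fun s => chk (ent L48 s)) 0 = true := by decide +kernel
theorem p48 : PrL chk L48 := leafL c48

theorem c49 : lp7 (fun s => chk (ent L49 s)) 0 = true := by decide +kernel
theorem p49 : PrL chk L49 := leafL c49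

theorem c50 : lp7 (fun s => chk (ent L50 s)) 0 = true := by decide +kernel
theorem p50 : PrL chk L50 := leafL c50

theorem c51 : lp7 (fun s => chk (ent L51 s)) 0 = true := by decide +kernel
theorem p51 : PrL chk L51 := leafL c51

theorem c52 : lp7 (fun s => chk (ent L52 s)) 0 = true := by decide +kernel
theorem p52 : PrL chk L52 := leafL c52

theorem c53 : lp7 (fun s => chk (ent L53 s)) 0 = true := by decide +kernel
theorem p53 : PrL chk L53 := leafL c53

theorem c54 : lp7 (fun s => chk (ent L54 s)) 0 = true := by decide +kernel
theorem p54 : PrL chk L54 := leafL c54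

theorem c55 : lp7 (fun s => chk (ent L55 s)) 0 = true := by decide +kernel
theorem p55 : PrL chk L55 := leafL c55

theorem c56 : lp7 (fun s => chk (ent L56 s)) 0 = true := by decide +kernel
theorem p56 : PrL chk L56 := leafL c56

theorem c57 : lp7 (fun s => chk (ent L57 s)) 0 = true := by decide +kernel
theorem p57 : PrL chk L57 := leafL c57

theorem c58 : lp7 (fun s => chk (ent L58 s)) 0 = true := by decide +kernel
theorem p58 : PrL chk L58 := leafL c58

theorem c59 : lp7 (fun s => chk (ent L59 s)) 0 = true := by decide +kernel
theorem p59 : PrL chk L59 := leafL c59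

theorem c60 : lp7 (fun s => chk (ent L60 s)) 0 = true := by decide +kernel
theorem p60 : PrL chk L60 := leafL c60

theorem c61 : lp7 (fun s => chk (ent L61 s)) 0 = true := by decide +kernel
theorem p61 : PrL chk L61 := leafL c61

theorem c62 : lp7 (fun s => chk (ent L62 s)) 0 = true := by decide +kernel
theorem p62 : PrL chk L62 := leafL c62

theorem c63 : lp7 (fun s => chk (ent L63 s)) 0 = true := by decide +kernel
theorem p63 : PrL chk L63 := leafL c63

theorem c64 : lp7 (fun s => chk (ent L64 s)) 0 = true := by decide +kernel
theorem p64 : PrL chk L64 := leafL c64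

theorem c65 : lp7 (fun s => chk (ent L65 s)) 0 = true := by decide +kernel
theorem p65 : PrL chk L65 := leafL c65

theorem c66 : lp7 (fun s => chk (ent L66 s)) 0 = true := by decide +kernel
theorem p66 : PrL chk L66 := leafL c66

theorem c67 : lp7 (fun s => chk (ent L67 s)) 0 = true := by decide +kernel
theorem p67 : PrL chk L67 := leafL c67

theorem c68 : lp7 (fun s => chk (ent L68 s)) 0 = true := by decide +kernel
theorem p68 : PrL chk L68 := leafL c68

theorem c69 : lp7 (fun s => chk (ent L69 s)) 0 = true := by decide +kernel
theorem p69 : PrL chk L69 := leafL c69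

theorem c70 : lp7 (fun s => chk (ent L70 s)) 0 = true := by decide +kernel
theorem p70 : PrL chk L70 := leafL c70

theorem c71 : lp7 (fun s => chk (ent L71 s)) 0 = true := by decide +kernel
theorem p71 : PrL chk L71 := leafL c71

theorem c72 : lp7 (fun s => chk (ent L72 s)) 0 = true := by decide +kernel
theorem p72 : PrL chk L72 := leafL c72

theorem c73 : lp7 (fun s => chk (ent L73 s)) 0 = true := by decide +kernel
theorem p73 : PrL chk L73 := leafL c73

theorem c74 : lp7 (fun s => chk (ent L74 s)) 0 = true := by decide +kernel
theorem p74 : PrL chk L74 := leafL c74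

theorem c75 : lp7 (fun s => chk (ent L75 s)) 0 = true := by decide +kernel
theorem p75 : PrL chk L75 := leafL c75

theorem c76 : lp7 (fun s => chk (ent L76 s)) 0 = true := by decide +kernel
theorem p76 : PrL chk L76 := leafL c76

theorem c77 : lp7 (fun s => chk (ent L77 s)) 0 = true := by decide +kernel
theorem p77 : PrL chk L77 := leafL c77

theorem c78 : lp7 (fun s => chk (ent L78 s)) 0 = true := by decide +kernel
theorem p78 : PrL chk L78 := leafL c78

theorem c79 : lp7 (fun s => chk (ent L79 s)) 0 = true := by decide +kernel
theorem p79 : PrL chk L79 := leafL c79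

theorem c80 : lp7 (fun s => chk (ent L80 s)) 0 = true := by decide +kernel
theorem p80 : PrL chk L80 := leafL c80

theorem c81 : lp7 (fun s => chk (ent L81 s)) 0 = true := by decide +kernel
theorem p81 : PrL chk L81 := leafL c81

theorem c82 : lp7 (fun s => chk (ent L82 s)) 0 = true := by decide +kernel
theorem p82 : PrL chk L82 := leafL c82

theorem c83 : lp7 (fun s => chk (ent L83 s)) 0 = true := by decide +kernel
theorem p83 : PrL chk L83 := leafL c83

theorem c84 : lp7 (fun s => chk (ent L84 s)) 0 = true := by decide +kernel
theorem p84 : PrL chk L84 := leafL c84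

theorem c85 : lp7 (fun s => chk (ent L85 s)) 0 = true := by decide +kernel
theorem p85 : PrL chk L85 := leafL c85

theorem c86 : lp7 (fun s => chk (ent L86 s)) 0 = true := by decide +kernel
theorem p86 : PrL chk L86 := leafL c86

theorem c87 : lp7 (fun s => chk (ent L87 s)) 0 = true := by decide +kernel
theorem p87 : PrL chk L87 := leafL c87

theorem c88 : lp7 (fun s => chk (ent L88 s)) 0 = true := by decide +kernel
theorem p88 : PrL chk L88 := leafL c88

theorem c89 : lp7 (fun s => chk (ent L89 s)) 0 = true := by decide +kernel
theorem p89 : PrL chk L89 := leafL c89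

theorem c90 : lp7 (fun s => chk (ent L90 s)) 0 = true := by decide +kernel
theorem p90 : PrL chk L90 := leafL c90

theorem c91 : lp7 (fun s => chk (ent L91 s)) 0 = true := by decide +kernel
theorem p91 : PrL chk L91 := leafL c91

theorem c92 : lp7 (fun s => chk (ent L92 s)) 0 = true := by decide +kernel
theorem p92 : PrL chk L92 := leafL c92

theorem c93 : lp7 (fun s => chk (ent L93 s)) 0 = true := by decide +kernel
theorem p93 : PrL chk L93 := leafL c93

theorem c94 : lp7 (fun s => chk (ent L94 s)) 0 = true := by decide +kernel
theorem p94 : PrL chk L94 := leafL c94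

theorem c95 : lp7 (fun s => chk (ent L95 s)) 0 = true := by decide +kernel
theorem p95 : PrL chk L95 := leafL c95

theorem c96 : lp7 (fun s => chk (ent L96 s)) 0 = true := by decide +kernel
theorem p96 : PrL chk L96 := leafL c96

theorem c97 : lp7 (fun s => chk (ent L97 s)) 0 = true := by decide +kernel
theorem p97 : PrL chk L97 := leafL c97

theorem c98 : lp7 (fun s => chk (ent L98 s)) 0 = true := by decide +kernel
theorem p98 : PrL chk L98 := leafL c98

theorem c99 : lp7 (fun s => chk (ent L99 s)) 0 = true := by decide +kernel
theorem p99 : PrL chk L99 := leafL c99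

theorem c100 : lp7 (fun s => chk (ent L100 s)) 0 = true := by decide +kernel
theorem p100 : PrL chk L100 := leafL c100

theorem c101 : lp7 (fun s => chk (ent L101 s)) 0 = true := by decide +kernel
theorem p101 : PrL chk L101 := leafL c101

theorem c102 : lp7 (fun s => chk (ent L102 s)) 0 = true := by decide +kernel
theorem p102 : PrL chk L102 := leafL c102

theorem c103 : lp7 (fun s => chk (ent L103 s)) 0 = true := by decide +kernel
theorem p103 : PrL chk L103 := leafL c103

theorem c104 : lp7 (fun s => chk (ent L104 s)) 0 = true := by decide +kernel
theorem p104 : PrL chk L104 := leafL c104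

theorem c105 : lp7 (fun s => chk (ent L105 s)) 0 = true := by decide +kernel
theorem p105 : PrL chk L105 := leafL c105

theorem c106 : lp7 (fun s => chk (ent L106 s)) 0 = true := by decide +kernel
theorem p106 : PrL chk L106 := leafL c106

theorem c107 : lp7 (fun s => chk (ent L107 s)) 0 = true := by decide +kernel
theorem p107 : PrL chk L107 := leafL c107

theorem c108 : lp7 (fun s => chk (ent L108 s)) 0 = true := by decide +kernel
theorem p108 : PrL chk L108 := leafL c108

theorem c109 : lp7 (fun s => chk (ent L109 s)) 0 = true := by decide +kernel
theorem p109 : PrL chk L109 := leafL c109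

theorem c110 : lp7 (fun s => chk (ent L110 s)) 0 = true := by decide +kernel
theorem p110 : PrL chk L110 := leafL c110

theorem c111 : lp7 (fun s => chk (ent L111 s)) 0 = true := by decide +kernel
theorem p111 : PrL chk L111 := leafL c111

theorem c112 : lp7 (fun s => chk (ent L112 s)) 0 = true := by decide +kernel
theorem p112 : PrL chk L112 := leafL c112

theorem c113 : lp7 (fun s => chk (ent L113 s)) 0 = true := by decide +kernel
theorem p113 : PrL chk L113 := leafL c113

theorem c114 : lp7 (fun s => chk (ent L114 s)) 0 = true := by decide +kernel
theorem p114 : PrL chk L114 := leafL c114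

theorem c115 : lp7 (fun s => chk (ent L115 s)) 0 = true := by decide +kernel
theorem p115 : PrL chk L115 := leafL c115

theorem c116 : lp7 (fun s => chk (ent L116 s)) 0 = true := by decide +kernel
theorem p116 : PrL chk L116 := leafL c116

theorem c117 : lp7 (fun s => chk (ent L117 s)) 0 = true := by decide +kernel
theorem p117 : PrL chk L117 := leafL c117

theorem c118 : lp7 (fun s => chk (ent L118 s)) 0 = true := by decide +kernel
theorem p118 : PrL chk L118 := leafL c118

theorem c119 : lp7 (fun s => chk (ent L119 s)) 0 = true := by decide +kernel
theorem p119 : PrL chk L119 := leafL c119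

theorem c120 : lp7 (fun s => chk (ent L120 s)) 0 = true := by decide +kernel
theorem p120 : PrL chk L120 := leafL c120

theorem c121 : lp7 (fun s => chk (ent L121 s)) 0 = true := by decide +kernel
theorem p121 : PrL chk L121 := leafL c121

theorem c122 : lp7 (fun s => chk (ent L122 s)) 0 = true := by decide +kernel
theorem p122 : PrL chk L122 := leafL c122

theorem c123 : lp7 (fun s => chk (ent L123 s)) 0 = true := by decide +kernel
theorem p123 : PrL chk L123 := leafL c123

theorem c124 : lp7 (fun s => chk (ent L124 s)) 0 = true := by decide +kernel
theorem p124 : PrL chk L124 := leafL c124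

theorem c125 : lp7 (fun s => chk (ent L125 s)) 0 = true := by decide +kernel
theorem p125 : PrL chk L125 := leafL c125

theorem c126 : lp7 (fun s => chk (ent L126 s)) 0 = true := by decide +kernel
theorem p126 : PrL chk L126 := leafL c126

theorem c127 : lp7 (fun s => chk (ent L127 s)) 0 = true := by decide +kernel
theorem p127 : PrL chk L127 := leafL c127

theorem c128 : lp7 (fun s => chk (ent L128 s)) 0 = true := by decide +kernel
theorem p128 : PrL chk L128 := leafL c128

theorem c129 : lp7 (fun s => chk (ent L129 s)) 0 = true := by decide +kernel
theorem p129 : PrL chk L129 := leafL c129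

theorem c130 : lp7 (fun s => chk (ent L130 s)) 0 = true := by decide +kernel
theorem p130 : PrL chk L130 := leafL c130

theorem c131 : lp7 (fun s => chk (ent L131 s)) 0 = true := by decide +kernel
theorem p131 : PrL chk L131 := leafL c131

theorem c132 : lp7 (fun s => chk (ent L132 s)) 0 = true := by decide +kernel
theorem p132 : PrL chk L132 := leafL c132

theorem c133 : lp7 (fun s => chk (ent L133 s)) 0 = true := by decide +kernel
theorem p133 : PrL chk L133 := leafL c133

theorem c134 : lp7 (fun s => chk (ent L134 s)) 0 = true := by decide +kernel
theorem p134 : PrL chk L134 := leafL c134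

theorem c135 : lp7 (fun s => chk (ent L135 s)) 0 = true := by decide +kernel
theorem p135 : PrL chk L135 := leafL c135

theorem c136 : lp7 (fun s => chk (ent L136 s)) 0 = true := by decide +kernel
theorem p136 : PrL chk L136 := leafL c136

theorem c137 : lp7 (fun s => chk (ent L137 s)) 0 = true := by decide +kernel
theorem p137 : PrL chk L137 := leafL c137

theorem c138 : lp7 (fun s => chk (ent L138 s)) 0 = true := by decide +kernel
theorem p138 : PrL chk L138 := leafL c138

theorem c139 : lp7 (fun s => chk (ent L139 s)) 0 = true := by decide +kernel
theorem p139 : PrL chk L139 := leafL c139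

theorem c140 : lp7 (fun s => chk (ent L140 s)) 0 = true := by decide +kernel
theorem p140 : PrL chk L140 := leafL c140

theorem c141 : lp7 (fun s => chk (ent L141 s)) 0 = true := by decide +kernel
theorem p141 : PrL chk L141 := leafL c141

theorem c142 : lp7 (fun s => chk (ent L142 s)) 0 = true := by decide +kernel
theorem p142 : PrL chk L142 := leafL c142

theorem c143 : lp7 (fun s => chk (ent L143 s)) 0 = true := by decide +kernel
theorem p143 : PrL chk L143 := leafL c143

theorem c144 : lp7 (fun s => chk (ent L144 s)) 0 = true := by decide +kernel
theorem p144 : PrL chk L144 := leafL c144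

theorem c145 : lp7 (fun s => chk (ent L145 s)) 0 = true := by decide +kernel
theorem p145 : PrL chk L145 := leafL c145

theorem c146 : lp7 (fun s => chk (ent L146 s)) 0 = true := by decide +kernel
theorem p146 : PrL chk L146 := leafL c146

theorem c147 : lp7 (fun s => chk (ent L147 s)) 0 = true := by decide +kernel
theorem p147 : PrL chk L147 := leafL c147

theorem c148 : lp7 (fun s => chk (ent L148 s)) 0 = true := by decide +kernel
theorem p148 : PrL chk L148 := leafL c148

theorem c149 : lp7 (fun s => chk (ent L149 s)) 0 = true := by decide +kernel
theorem p149 : PrL chk L149 := leafL c149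

theorem c150 : lp7 (fun s => chk (ent L150 s)) 0 = true := by decide +kernel
theorem p150 : PrL chk L150 := leafL c150

theorem c151 : lp7 (fun s => chk (ent L151 s)) 0 = true := by decide +kernel
theorem p151 : PrL chk L151 := leafL c151

theorem c152 : lp7 (fun s => chk (ent L152 s)) 0 = true := by decide +kernel
theorem p152 : PrL chk L152 := leafL c152

theorem c153 : lp7 (fun s => chk (ent L153 s)) 0 = true := by decide +kernel
theorem p153 : PrL chk L153 := leafL c153

theorem c154 : lp7 (fun s => chk (ent L154 s)) 0 = true := by decide +kernel
theorem p154 : PrL chk L154 := leafL c154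

theorem c155 : lp7 (fun s => chk (ent L155 s)) 0 = true := by decide +kernel
theorem p155 : PrL chk L155 := leafL c155

theorem c156 : lp7 (fun s => chk (ent L156 s)) 0 = true := by decide +kernel
theorem p156 : PrL chk L156 := leafL c156

theorem c157 : lp7 (fun s => chk (ent L157 s)) 0 = true := by decide +kernel
theorem p157 : PrL chk L157 := leafL c157

theorem c158 : lp7 (fun s => chk (ent L158 s)) 0 = true := by decide +kernel
theorem p158 : PrL chk L158 := leafL c158

theorem c159 : lp7 (fun s => chk (ent L159 s)) 0 = true := by decide +kernel
theorem p159 : PrL chk L159 := leafL c159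

theorem c160 : lp7 (fun s => chk (ent L160 s)) 0 = true := by decide +kernel
theorem p160 : PrL chk L160 := leafL c160

theorem c161 : lp7 (fun s => chk (ent L161 s)) 0 = true := by decide +kernel
theorem p161 : PrL chk L161 := leafL c161

theorem c162 : lp7 (fun s => chk (ent L162 s)) 0 = true := by decide +kernel
theorem p162 : PrL chk L162 := leafL c162

theorem c163 : lp7 (fun s => chk (ent L163 s)) 0 = true := by decide +kernel
theorem p163 : PrL chk L163 := leafL c163

theorem c164 : lp7 (fun s => chk (ent L164 s)) 0 = true := by decide +kernel
theorem p164 : PrL chk L164 := leafL c164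

theorem c165 : lp7 (fun s => chk (ent L165 s)) 0 = true := by decide +kernel
theorem p165 : PrL chk L165 := leafL c165

theorem c166 : lp7 (fun s => chk (ent L166 s)) 0 = true := by decide +kernel
theorem p166 : PrL chk L166 := leafL c166

theorem c167 : lp7 (fun s => chk (ent L167 s)) 0 = true := by decide +kernel
theorem p167 : PrL chk L167 := leafL c167

theorem c168 : lp7 (fun s => chk (ent L168 s)) 0 = true := by decide +kernel
theorem p168 : PrL chk L168 := leafL c168

theorem c169 : lp7 (fun s => chk (ent L169 s)) 0 = true := by decide +kernel
theorem p169 : PrL chk L169 := leafL c169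

theorem c170 : lp7 (fun s => chk (ent L170 s)) 0 = true := by decide +kernel
theorem p170 : PrL chk L170 := leafL c170

theorem c171 : lp7 (fun s => chk (ent L171 s)) 0 = true := by decide +kernel
theorem p171 : PrL chk L171 := leafL c171

theorem c172 : lp7 (fun s => chk (ent L172 s)) 0 = true := by decide +kernel
theorem p172 : PrL chk L172 := leafL c172

theorem c173 : lp7 (fun s => chk (ent L173 s)) 0 = true := by decide +kernel
theorem p173 : PrL chk L173 := leafL c173

theorem c174 : lp7 (fun s => chk (ent L174 s)) 0 = true := by decide +kernel
theorem p174 : PrL chk L174 := leafL c174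

theorem c175 : lp7 (fun s => chk (ent L175 s)) 0 = true := by decide +kernel
theorem p175 : PrL chk L175 := leafL c175

theorem c176 : lp7 (fun s => chk (ent L176 s)) 0 = true := by decide +kernel
theorem p176 : PrL chk L176 := leafL c176

theorem c177 : lp7 (fun s => chk (ent L177 s)) 0 = true := by decide +kernel
theorem p177 : PrL chk L177 := leafL c177

theorem c178 : lp7 (fun s => chk (ent L178 s)) 0 = true := by decide +kernel
theorem p178 : PrL chk L178 := leafL c178

theorem c179 : lp7 (fun s => chk (ent L179 s)) 0 = true := by decide +kernel
theorem p179 : PrL chk L179 := leafL c179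

theorem c180 : lp7 (fun s => chk (ent L180 s)) 0 = true := by decide +kernel
theorem p180 : PrL chk L180 := leafL c180

theorem c181 : lp7 (fun s => chk (ent L181 s)) 0 = true := by decide +kernel
theorem p181 : PrL chk L181 := leafL c181

theorem c182 : lp7 (fun s => chk (ent L182 s)) 0 = true := by decide +kernel
theorem p182 : PrL chk L182 := leafL c182

theorem c183 : lp7 (fun s => chk (ent L183 s)) 0 = true := by decide +kernel
theorem p183 : PrL chk L183 := leafL c183

theorem c184 : lp7 (fun s => chk (ent L184 s)) 0 = true := by decide +kernel
theorem p184 : PrL chk L184 := leafL c184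

theorem c185 : lp7 (fun s => chk (ent L185 s)) 0 = true := by decide +kernel
theorem p185 : PrL chk L185 := leafL c185

theorem c186 : lp7 (fun s => chk (ent L186 s)) 0 = true := by decide +kernel
theorem p186 : PrL chk L186 := leafL c186

theorem c187 : lp7 (fun s => chk (ent L187 s)) 0 = true := by decide +kernel
theorem p187 : PrL chk L187 := leafL c187

theorem c188 : lp7 (fun s => chk (ent L188 s)) 0 = true := by decide +kernel
theorem p188 : PrL chk L188 := leafL c188

theorem c189 : lp7 (fun s => chk (ent L189 s)) 0 = true := by decide +kernel
theorem p189 : PrL chk L189 := leafL c189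

theorem c190 : lp7 (fun s => chk (ent L190 s)) 0 = true := by decide +kernel
theorem p190 : PrL chk L190 := leafL c190

theorem c191 : lp7 (fun s => chk (ent L191 s)) 0 = true := by decide +kernel
theorem p191 : PrL chk L191 := leafL c191

theorem c192 : lp7 (fun s => chk (ent L192 s)) 0 = true := by decide +kernel
theorem p192 : PrL chk L192 := leafL c192

theorem c193 : lp7 (fun s => chk (ent L193 s)) 0 = true := by decide +kernel
theorem p193 : PrL chk L193 := leafL c193

theorem c194 : lp7 (fun s => chk (ent L194 s)) 0 = true := by decide +kernel
theorem p194 : PrL chk L194 := leafL c194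

theorem c195 : lp7 (fun s => chk (ent L195 s)) 0 = true := by decide +kernel
theorem p195 : PrL chk L195 := leafL c195

theorem c196 : lp7 (fun s => chk (ent L196 s)) 0 = true := by decide +kernel
theorem p196 : PrL chk L196 := leafL c196

theorem c197 : lp7 (fun s => chk (ent L197 s)) 0 = true := by decide +kernel
theorem p197 : PrL chk L197 := leafL c197

theorem c198 : lp7 (fun s => chk (ent L198 s)) 0 = true := by decide +kernel
theorem p198 : PrL chk L198 := leafL c198

theorem c199 : lp7 (fun s => chk (ent L199 s)) 0 = true := by decide +kernel
theorem p199 : PrL chk L199 := leafL c199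

theorem c200 : lp7 (fun s => chk (ent L200 s)) 0 = true := by decide +kernel
theorem p200 : PrL chk L200 := leafL c200

theorem c201 : lp7 (fun s => chk (ent L201 s)) 0 = true := by decide +kernel
theorem p201 : PrL chk L201 := leafL c201

theorem c202 : lp7 (fun s => chk (ent L202 s)) 0 = true := by decide +kernel
theorem p202 : PrL chk L202 := leafL c202

theorem c203 : lp7 (fun s => chk (ent L203 s)) 0 = true := by decide +kernel
theorem p203 : PrL chk L203 := leafL c203

theorem c204 : lp7 (fun s => chk (ent L204 s)) 0 = true := by decide +kernel
theorem p204 : PrL chk L204 := leafL c204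

theorem c205 : lp7 (fun s => chk (ent L205 s)) 0 = true := by decide +kernel
theorem p205 : PrL chk L205 := leafL c205

theorem c206 : lp7 (fun s => chk (ent L206 s)) 0 = true := by decide +kernel
theorem p206 : PrL chk L206 := leafL c206

theorem c207 : lp7 (fun s => chk (ent L207 s)) 0 = true := by decide +kernel
theorem p207 : PrL chk L207 := leafL c207

theorem c208 : lp7 (fun s => chk (ent L208 s)) 0 = true := by decide +kernel
theorem p208 : PrL chk L208 := leafL c208

theorem c209 : lp7 (fun s => chk (ent L209 s)) 0 = true := by decide +kernel
theorem p209 : PrL chk L209 := leafL c209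

theorem c210 : lp7 (fun s => chk (ent L210 s)) 0 = true := by decide +kernel
theorem p210 : PrL chk L210 := leafL c210

theorem c211 : lp7 (fun s => chk (ent L211 s)) 0 = true := by decide +kernel
theorem p211 : PrL chk L211 := leafL c211

theorem c212 : lp7 (fun s => chk (ent L212 s)) 0 = true := by decide +kernel
theorem p212 : PrL chk L212 := leafL c212

theorem c213 : lp7 (fun s => chk (ent L213 s)) 0 = true := by decide +kernel
theorem p213 : PrL chk L213 := leafL c213

theorem c214 : lp7 (fun s => chk (ent L214 s)) 0 = true := by decide +kernel
theorem p214 : PrL chk L214 := leafL c214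

theorem c215 : lp7 (fun s => chk (ent L215 s)) 0 = true := by decide +kernel
theorem p215 : PrL chk L215 := leafL c215

theorem c216 : lp7 (fun s => chk (ent L216 s)) 0 = true := by decide +kernel
theorem p216 : PrL chk L216 := leafL c216

theorem c217 : lp7 (fun s => chk (ent L217 s)) 0 = true := by decide +kernel
theorem p217 : PrL chk L217 := leafL c217

theorem c218 : lp7 (fun s => chk (ent L218 s)) 0 = true := by decide +kernel
theorem p218 : PrL chk L218 := leafL c218

theorem c219 : lp7 (fun s => chk (ent L219 s)) 0 = true := by decide +kernel
theorem p219 : PrL chk L219 := leafL c219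

theorem c220 : lp7 (fun s => chk (ent L220 s)) 0 = true := by decide +kernel
theorem p220 : PrL chk L220 := leafL c220

theorem c221 : lp7 (fun s => chk (ent L221 s)) 0 = true := by decide +kernel
theorem p221 : PrL chk L221 := leafL c221

theorem c222 : lp7 (fun s => chk (ent L222 s)) 0 = true := by decide +kernel
theorem p222 : PrL chk L222 := leafL c222

theorem c223 : lp7 (fun s => chk (ent L223 s)) 0 = true := by decide +kernel
theorem p223 : PrL chk L223 := leafL c223

theorem c224 : lp7 (fun s => chk (ent L224 s)) 0 = true := by decide +kernel
theorem p224 : PrL chk L224 := leafL c224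

theorem c225 : lp7 (fun s => chk (ent L225 s)) 0 = true := by decide +kernel
theorem p225 : PrL chk L225 := leafL c225

theorem c226 : lp7 (fun s => chk (ent L226 s)) 0 = true := by decide +kernel
theorem p226 : PrL chk L226 := leafL c226

theorem c227 : lp7 (fun s => chk (ent L227 s)) 0 = true := by decide +kernel
theorem p227 : PrL chk L227 := leafL c227

theorem c228 : lp7 (fun s => chk (ent L228 s)) 0 = true := by decide +kernel
theorem p228 : PrL chk L228 := leafL c228

theorem c229 : lp7 (fun s => chk (ent L229 s)) 0 = true := by decide +kernel
theorem p229 : PrL chk L229 := leafL c229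

theorem c230 : lp7 (fun s => chk (ent L230 s)) 0 = true := by decide +kernel
theorem p230 : PrL chk L230 := leafL c230

theorem c231 : lp7 (fun s => chk (ent L231 s)) 0 = true := by decide +kernel
theorem p231 : PrL chk L231 := leafL c231

theorem c232 : lp7 (fun s => chk (ent L232 s)) 0 = true := by decide +kernel
theorem p232 : PrL chk L232 := leafL c232

theorem c233 : lp7 (fun s => chk (ent L233 s)) 0 = true := by decide +kernel
theorem p233 : PrL chk L233 := leafL c233

theorem c234 : lp7 (fun s => chk (ent L234 s)) 0 = true := by decide +kernel
theorem p234 : PrL chk L234 := leafL c234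

theorem c235 : lp7 (fun s => chk (ent L235 s)) 0 = true := by decide +kernel
theorem p235 : PrL chk L235 := leafL c235

theorem c236 : lp7 (fun s => chk (ent L236 s)) 0 = true := by decide +kernel
theorem p236 : PrL chk L236 := leafL c236

theorem c237 : lp7 (fun s => chk (ent L237 s)) 0 = true := by decide +kernel
theorem p237 : PrL chk L237 := leafL c237

theorem c238 : lp7 (fun s => chk (ent L238 s)) 0 = true := by decide +kernel
theorem p238 : PrL chk L238 := leafL c238

theorem c239 : lp7 (fun s => chk (ent L239 s)) 0 = true := by decide +kernel
theorem p239 : PrL chk L239 := leafL c239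

theorem c240 : lp7 (fun s => chk (ent L240 s)) 0 = true := by decide +kernel
theorem p240 : PrL chk L240 := leafL c240

theorem c241 : lp7 (fun s => chk (ent L241 s)) 0 = true := by decide +kernel
theorem p241 : PrL chk L241 := leafL c241

theorem c242 : lp7 (fun s => chk (ent L242 s)) 0 = true := by decide +kernel
theorem p242 : PrL chk L242 := leafL c242

theorem c243 : lp7 (fun s => chk (ent L243 s)) 0 = true := by decide +kernel
theorem p243 : PrL chk L243 := leafL c243

theorem c244 : lp7 (fun s => chk (ent L244 s)) 0 = true := by decide +kernel
theorem p244 : PrL chk L244 := leafL c244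

theorem c245 : lp7 (fun s => chk (ent L245 s)) 0 = true := by decide +kernel
theorem p245 : PrL chk L245 := leafL c245

theorem c246 : lp7 (fun s => chk (ent L246 s)) 0 = true := by decide +kernel
theorem p246 : PrL chk L246 := leafL c246

theorem c247 : lp7 (fun s => chk (ent L247 s)) 0 = true := by decide +kernel
theorem p247 : PrL chk L247 := leafL c247

theorem c248 : lp7 (fun s => chk (ent L248 s)) 0 = true := by decide +kernel
theorem p248 : PrL chk L248 := leafL c248

theorem c249 : lp7 (fun s => chk (ent L249 s)) 0 = true := by decide +kernel
theorem p249 : PrL chk L249 := leafL c249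

theorem c250 : lp7 (fun s => chk (ent L250 s)) 0 = true := by decide +kernel
theorem p250 : PrL chk L250 := leafL c250

theorem c251 : lp7 (fun s => chk (ent L251 s)) 0 = true := by decide +kernel
theorem p251 : PrL chk L251 := leafL c251

theorem c252 : lp7 (fun s => chk (ent L252 s)) 0 = true := by decide +kernel
theorem p252 : PrL chk L252 := leafL c252

theorem c253 : lp7 (fun s => chk (ent L253 s)) 0 = true := by decide +kernel
theorem p253 : PrL chk L253 := leafL c253

theorem c254 : lp7 (fun s => chk (ent L254 s)) 0 = true := by decide +kernel
theorem p254 : PrL chk L254 := leafL c254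

theorem c255 : lp7 (fun s => chk (ent L255 s)) 0 = true := by decide +kernel
theorem p255 : PrL chk L255 := leafL c255

end Pool.Agent.ad013a.R4
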