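import Pool.Agent.H.MP_ad013a_pr.h63r.Q4.T
import Pool.Agent.H.MP_ad013a_pr.h63w.VLoop

namespace Pool.Agent.ad013a.R4

theorem c256 : lp7 (fun s => chk (ent L256 s)) 0 = true := by decide +kernel
theorem p256 : PrL chk L256 := leafL c256

theorem c257 : lp7 (fun s => chk (ent L257 s)) 0 = true := by decide +kernel
theorem p257 : PrL chk L257 := leafL c257

theorem c258 : lp7 (fun s => chk (ent L258 s)) 0 = true := by decide +kernel
theorem p258 : PrL chk L258 := leafL c258

theorem c259 : lp7 (fun s => chk (ent L259 s)) 0 = true := by decide +kernel
theorem p259 : PrL chk L259 := leafL c259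

theorem c260 : lp7 (fun s => chk (ent L260 s)) 0 = true := by decide +kernel
theorem p260 : PrL chk L260 := leafL c260

theorem c261 : lp7 (fun s => chk (ent L261 s)) 0 = true := by decide +kernel
theorem p261 : PrL chk L261 := leafL c261

theorem c262 : lp7 (fun s => chk (ent L262 s)) 0 = true := by decide +kernel
theorem p262 : PrL chk L262 := leafL c262

theorem c263 : lp7 (fun s => chk (ent L263 s)) 0 = true := by decide +kernel
theorem p263 : PrL chk L263 := leafL c263

theorem c264 : lp7 (fun s => chk (ent L264 s)) 0 = true := by decide +kernel
theorem p264 : PrL chk L264 := leafL c264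

theorem c265 : lp7 (fun s => chk (ent L265 s)) 0 = true := by decide +kernel
theorem p265 : PrL chk L265 := leafL c265

theorem c266 : lp7 (fun s => chk (ent L266 s)) 0 = true := by decide +kernel
theorem p266 : PrL chk L266 := leafL c266

theorem c267 : lp7 (fun s => chk (ent L267 s)) 0 = true := by decide +kernel
theorem p267 : PrL chk L267 := leafL c267

theorem c268 : lp7 (fun s => chk (ent L268 s)) 0 = true := by decide +kernel
theorem p268 : PrL chk L268 := leafL c268

theorem c269 : lp7 (fun s => chk (ent L269 s)) 0 = true := by decide +kernel
theorem p269 : PrL chk L269 := leafL c269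

theorem c270 : lp7 (fun s => chk (ent L270 s)) 0 = true := by decide +kernel
theorem p270 : PrL chk L270 := leafL c270

theorem c271 : lp7 (fun s => chk (ent L271 s)) 0 = true := by decide +kernel
theorem p271 : PrL chk L271 := leafL c271

theorem c272 : lp7 (fun s => chk (ent L272 s)) 0 = true := by decide +kernel
theorem p272 : PrL chk L272 := leafL c272

theorem c273 : lp7 (fun s => chk (ent L273 s)) 0 = true := by decide +kernel
theorem p273 : PrL chk L273 := leafL c273

theorem c274 : lp7 (fun s => chk (ent L274 s)) 0 = true := by decide +kernel
theorem p274 : PrL chk L274 := leafL c274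

theorem c275 : lp7 (fun s => chk (ent L275 s)) 0 = true := by decide +kernel
theorem p275 : PrL chk L275 := leafL c275

end Pool.Agent.ad013a.R4
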