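import Pool.Agent.H.MP_ad013a_pr.h63r.Q4.C0
import Pool.Agent.H.MP_ad013a_pr.h63r.Q4.C1

namespace Pool.Agent.ad013a.R4

theorem A0_0_ok (i : Nat) : PrL chk (A0_0 i) := by
 unfold A0_0
 exact
 (brec_all (PrL chk)
 (brec_all (PrL chk)
  (brec_all (PrL chk)
   (brec_all (PrL chk)
    p0
    p1)
   (brec_all (PrL chk)
    p2
    p3))
  (brec_all (PrL chk)
   (brec_all (PrL chk)
    p4
    p5)
   (brec_all (PrL chk)
    p6
    p7)))
 (brec_all (PrL chk)
  (brec_all (PrL chk)
   (brec_all (PrL chk)
    p8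
    p9)
   (brec_all (PrL chk)
    p10
    p11))
  (brec_all (PrL chk)
   (brec_all (PrL chk)
    p12
    p13)
   (brec_all (PrL chk)
    p14
    p15))))

theorem A0_1_ok (i : Nat) : PrL chk (A0_1 i) := by
 unfold A0_1
 exact
 (brec_all (PrL chk)
 (brec_all (PrL chk)
  (brec_all (PrL chk)
   (brec_all (PrL chk)
    p16
    p17)
   (brec_all (PrL chk)
    p18
    p19))
  (brec_all (PrL chk)
   (brec_all (PrL chk)
    p20
    p21)
   (brec_all (PrL chk)
    p22
    p23)))
 (brec_all (PrL chk)
  (brec_all (PrL chk)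
   (brec_all (PrL chk)
    p24
    p25)
   (brec_all (PrL chk)
    p26
    p27))
  (brec_all (PrL chk)
   (brec_all (PrL chk)
    p28
    p29)
   (brec_all (PrL chk)
    p30
    p31))))

theorem A0_2_ok (i : Nat) : PrL chk (A0_2 i) := by
 unfold A0_2
 exact
 (brec_all (PrL chk)
 (brec_all (PrL chk)
  (brec_all (PrL chk)
   (brec_all (PrL chk)
    p32
    p33)
   (brec_all (PrL chk)
    p34
    p35))
  (brec_all (PrL chk)
   (brec_all (PrL chk)
    p36
    p37)
   (brec_all (PrL chk)
    p38
    p39)))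
 (brec_all (PrL chk)
  (brec_all (PrL chk)
   (brec_all (PrL chk)
    p40
    p41)
   (brec_all (PrL chk)
    p42
    p43))
  (brec_all (PrL chk)
   (brec_all (PrL chk)
    p44
    p45)
   (brec_all (PrL chk)
    p46
    p47))))

theorem A0_3_ok (i : Nat) : PrL chk (A0_3 i) := by
 unfold A0_3
 exact
 (brec_all (PrL chk)
 (brec_all (PrL chk)
  (brec_all (PrL chk)
   (brec_all (PrL chk)
    p48
    p49)
   (brec_all (PrL chk)
    p50
    p51))
  (brec_all (PrL chk)
   (brec_all (PrL chk)
    p52
    p53)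
   (brec_all (PrL chk)
    p54
    p55)))
 (brec_all (PrL chk)
  (brec_all (PrL chk)
   (brec_all (PrL chk)
    p56
    p57)
   (brec_all (PrL chk)
    p58
    p59))
  (brec_all (PrL chk)
   (brec_all (PrL chk)
    p60
    p61)
   (brec_all (PrL chk)
    p62
    p63))))

theorem A0_4_ok (i : Nat) : PrL chk (A0_4 i) := by
 unfold A0_4
 exact
 (brec_all (PrL chk)
 (brec_all (PrL chk)
  (brec_all (PrL chk)
   (brec_all (PrL chk)
    p64
    p65)
   (brec_all (PrL chk)
    p66
    p67))
  (brec_all (PrL chk)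
   (brec_all (PrL chk)
    p68
    p69)
   (brec_all (PrL chk)
    p70
    p71)))
 (brec_all (PrL chk)
  (brec_all (PrL chk)
   (brec_all (PrL chk)
    p72
    p73)
   (brec_all (PrL chk)
    p74
    p75))
  (brec_all (PrL chk)
   (brec_all (PrL chk)
    p76
    p77)
   (brec_all (PrL chk)
    p78
    p79))))

theorem A0_5_ok (i : Nat) : PrL chk (A0_5 i) := by
 unfold A0_5
 exact
 (brec_all (PrL chk)
 (brec_all (PrL chk)
  (brec_all (PrL chk)
   (brec_all (PrL chk)
    p80
    p81)
   (brec_all (PrL chk)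
    p82
    p83))
  (brec_all (PrL chk)
   (brec_all (PrL chk)
    p84
    p85)
   (brec_all (PrL chk)
    p86
    p87)))
 (brec_all (PrL chk)
  (brec_all (PrL chk)
   (brec_all (PrL chk)
    p88
    p89)
   (brec_all (PrL chk)
    p90
    p91))
  (brec_all (PrL chk)
   (brec_all (PrL chk)
    p92
    p93)
   (brec_all (PrL chk)
    p94
    p95))))

theorem A0_6_ok (i : Nat) : PrL chk (A0_6 i) := by
 unfold A0_6
 exact
 (brec_all (PrL chk)
 (brec_all (PrL chk)
  (brec_all (PrL chk)
   (brec_all (PrL chk)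
    p96
    p97)
   (brec_all (PrL chk)
    p98
    p99))
  (brec_all (PrL chk)
   (brec_all (PrL chk)
    p100
    p101)
   (brec_all (PrL chk)
    p102
    p103)))
 (brec_all (PrL chk)
  (brec_all (PrL chk)
   (brec_all (PrL chk)
    p104
    p105)
   (brec_all (PrL chk)
    p106
    p107))
  (brec_all (PrL chk)
   (brec_all (PrL chk)
    p108
    p109)
   (brec_all (PrL chk)
    p110
    p111))))

theorem A0_7_ok (i : Nat) : PrL chk (A0_7 i) := by
 unfold A0_7
 exact
 (brec_all (PrL chk)
 (brec_all (PrL chk)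
  (brec_all (PrL chk)
   (brec_all (PrL chk)
    p112
    p113)
   (brec_all (PrL chk)
    p114
    p115))
  (brec_all (PrL chk)
   (brec_all (PrL chk)
    p116
    p117)
   (brec_all (PrL chk)
    p118
    p119)))
 (brec_all (PrL chk)
  (brec_all (PrL chk)
   (brec_all (PrL chk)
    p120
    p121)
   (brec_all (PrL chk)
    p122
    p123))
  (brec_all (PrL chk)
   (brec_all (PrL chk)
    p124
    p125)
   (brec_all (PrL chk)
    p126
    p127))))

theorem A0_8_ok (i : Nat) : PrL chk (A0_8 i) := by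
 unfold A0_8
 exact
 (brec_all (PrL chk)
 (brec_all (PrL chk)
  (brec_all (PrL chk)
   (brec_all (PrL chk)
    p128
    p129)
   (brec_all (PrL chk)
    p130
    p131))
  (brec_all (PrL chk)
   (brec_all (PrL chk)
    p132
    p133)
   (brec_all (PrL chk)
    p134
    p135)))
 (brec_all (PrL chk)
  (brec_all (PrL chk)
   (brec_all (PrL chk)
    p136
    p137)
   (brec_all (PrL chk)
    p138
    p139))
  (brec_all (PrL chk)
   (brec_all (PrL chk)
    p140
    p141)
   (brec_all (PrL chk)
    p142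
    p143))))

theorem A0_9_ok (i : Nat) : PrL chk (A0_9 i) := by
 unfold A0_9
 exact
 (brec_all (PrL chk)
 (brec_all (PrL chk)
  (brec_all (PrL chk)
   (brec_all (PrL chk)
    p144
    p145)
   (brec_all (PrL chk)
    p146
    p147))
  (brec_all (PrL chk)
   (brec_all (PrL chk)
    p148
    p149)
   (brec_all (PrL chk)
    p150
    p151)))
 (brec_all (PrL chk)
  (brec_all (PrL chk)
   (brec_all (PrL chk)
    p152
    p153)
   (brec_all (PrL chk)
    p154
    p155))
  (brec_all (PrL chk)
   (brec_all (PrL chk)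
    p156
    p157)
   (brec_all (PrL chk)
    p158
    p159))))

theorem A0_10_ok (i : Nat) : PrL chk (A0_10 i) := by
 unfold A0_10
 exact
 (brec_all (PrL chk)
 (brec_all (PrL chk)
  (brec_all (PrL chk)
   (brec_all (PrL chk)
    p160
    p161)
   (brec_all (PrL chk)
    p162
    p163))
  (brec_all (PrL chk)
   (brec_all (PrL chk)
    p164
    p165)
   (brec_all (PrL chk)
    p166
    p167)))
 (brec_all (PrL chk)
  (brec_all (PrL chk)
   (brec_all (PrL chk)
    p168
    p169)
   (brec_all (PrL chk)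
    p170
    p171))
  (brec_all (PrL chk)
   (brec_all (PrL chk)
    p172
    p173)
   (brec_all (PrL chk)
    p174
    p175))))

theorem A0_11_ok (i : Nat) : PrL chk (A0_11 i) := by
 unfold A0_11
 exact
 (brec_all (PrL chk)
 (brec_all (PrL chk)
  (brec_all (PrL chk)
   (brec_all (PrL chk)
    p176
    p177)
   (brec_all (PrL chk)
    p178
    p179))
  (brec_all (PrL chk)
   (brec_all (PrL chk)
    p180
    p181)
   (brec_all (PrL chk)
    p182
    p183)))
 (brec_all (PrL chk)
  (brec_all (PrL chk)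
   (brec_all (PrL chk)
    p184
    p185)
   (brec_all (PrL chk)
    p186
    p187))
  (brec_all (PrL chk)
   (brec_all (PrL chk)
    p188
    p189)
   (brec_all (PrL chk)
    p190
    p191))))

theorem A0_12_ok (i : Nat) : PrL chk (A0_12 i) := by
 unfold A0_12
 exact
 (brec_all (PrL chk)
 (brec_all (PrL chk)
  (brec_all (PrL chk)
   (brec_all (PrL chk)
    p192
    p193)
   (brec_all (PrL chk)
    p194
    p195))
  (brec_all (PrL chk)
   (brec_all (PrL chk)
    p196
    p197)
   (brec_all (PrL chk)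
    p198
    p199)))
 (brec_all (PrL chk)
  (brec_all (PrL chk)
   (brec_all (PrL chk)
    p200
    p201)
   (brec_all (PrL chk)
    p202
    p203))
  (brec_all (PrL chk)
   (brec_all (PrL chk)
    p204
    p205)
   (brec_all (PrL chk)
    p206
    p207))))

theorem A0_13_ok (i : Nat) : PrL chk (A0_13 i) := by
 unfold A0_13
 exact
 (brec_all (PrL chk)
 (brec_all (PrL chk)
  (brec_all (PrL chk)
   (brec_all (PrL chk)
    p208
    p209)
   (brec_all (PrL chk)
    p210
    p211))
  (brec_all (PrL chk)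
   (brec_all (PrL chk)
    p212
    p213)
   (brec_all (PrL chk)
    p214
    p215)))
 (brec_all (PrL chk)
  (brec_all (PrL chk)
   (brec_all (PrL chk)
    p216
    p217)
   (brec_all (PrL chk)
    p218
    p219))
  (brec_all (PrL chk)
   (brec_all (PrL chk)
    p220
    p221)
   (brec_all (PrL chk)
    p222
    p223))))

theorem A0_14_ok (i : Nat) : PrL chk (A0_14 i) := by
 unfold A0_14
 exact
 (brec_all (PrL chk)
 (brec_all (PrL chk)
  (brec_all (PrL chk)
   (brec_all (PrL chk)
    p224
    p225)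
   (brec_all (PrL chk)
    p226
    p227))
  (brec_all (PrL chk)
   (brec_all (PrL chk)
    p228
    p229)
   (brec_all (PrL chk)
    p230
    p231)))
 (brec_all (PrL chk)
  (brec_all (PrL chk)
   (brec_all (PrL chk)
    p232
    p233)
   (brec_all (PrL chk)
    p234
    p235))
  (brec_all (PrL chk)
   (brec_all (PrL chk)
    p236
    p237)
   (brec_all (PrL chk)
    p238
    p239))))

theorem A0_15_ok (i : Nat) : PrL chk (A0_15 i) := by
 unfold A0_15
 exact
 (brec_all (PrL chk)
 (brec_all (PrL chk)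
  (brec_all (PrL chk)
   (brec_all (PrL chk)
    p240
    p241)
   (brec_all (PrL chk)
    p242
    p243))
  (brec_all (PrL chk)
   (brec_all (PrL chk)
    p244
    p245)
   (brec_all (PrL chk)
    p246
    p247)))
 (brec_all (PrL chk)
  (brec_all (PrL chk)
   (brec_all (PrL chk)
    p248
    p249)
   (brec_all (PrL chk)
    p250
    p251))
  (brec_all (PrL chk)
   (brec_all (PrL chk)
    p252
    p253)
   (brec_all (PrL chk)
    p254
    p255))))

theorem A0_16_ok (i : Nat) : PrL chk (A0_16 i) := by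
 unfold A0_16
 exact
 (brec_all (PrL chk)
 (brec_all (PrL chk)
  (brec_all (PrL chk)
   (brec_all (PrL chk)
    p256
    p257)
   (brec_all (PrL chk)
    p258
    p259))
  (brec_all (PrL chk)
   (brec_all (PrL chk)
    p260
    p261)
   (brec_all (PrL chk)
    p262
    p263)))
 (brec_all (PrL chk)
  (brec_all (PrL chk)
   (brec_all (PrL chk)
    p264
    p265)
   (brec_all (PrL chk)
    p266
    p267))
  (brec_all (PrL chk)
   (brec_all (PrL chk)
    p268
    p269)
   (brec_all (PrL chk)
    p270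
    p271))))

theorem A0_17_ok (i : Nat) : PrL chk (A0_17 i) := by
 unfold A0_17
 exact
 (brec_all (PrL chk)
 (brec_all (PrL chk)
  p272
  p273)
 (brec_all (PrL chk)
  p274
  p275))

theorem A1_0_ok (i : Nat) : PrL chk (A1_0 i) := by
 unfold A1_0
 exact
 (brec_all (PrL chk)
 (brec_all (PrL chk)
  (brec_all (PrL chk)
   (brec_all (PrL chk)
    (A0_0_ok i)
    (A0_1_ok i))
   (brec_all (PrL chk)
    (A0_2_ok i)
    (A0_3_ok i)))
  (brec_all (PrL chk)
   (brec_all (PrL chk)
    (A0_4_ok i)
    (A0_5_ok i))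
   (brec_all (PrL chk)
    (A0_6_ok i)
    (A0_7_ok i))))
 (brec_all (PrL chk)
  (brec_all (PrL chk)
   (brec_all (PrL chk)
    (A0_8_ok i)
    (A0_9_ok i))
   (brec_all (PrL chk)
    (A0_10_ok i)
    (A0_11_ok i)))
  (brec_all (PrL chk)
   (brec_all (PrL chk)
    (A0_12_ok i)
    (A0_13_ok i))
   (brec_all (PrL chk)
    (A0_14_ok i)
    (A0_15_ok i)))))

theorem A1_1_ok (i : Nat) : PrL chk (A1_1 i) := by
 unfold A1_1
 exact
 (brec_all (PrL chk)
 (A0_16_ok i)
 (A0_17_ok i))

theorem leaf_ok (i : Nat) : PrL chk (leaf i) := by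
 unfold leaf
 exact
 (brec_all (PrL chk)
 (A1_0_ok i)
 (A1_1_ok i))

theorem all_ok (i : Nat) : chkF false 10000 131072 53771 6802 6826 g (g i) = true := leaf_ok i i

theorem start_ok : fhx (g 0) = 0 ∧ flx (g 0) = 0 ∧ fnx (g 0) = 0 ∧
    fhy (g 0) = 0 ∧ fly (g 0) = 0 ∧ fny (g 0) = 0 := by decide +kernel

end Pool.Agent.ad013a.R4
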